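import Pool.Agent.H27.G.R_seed8.Y969.SM.Stm
import Pool.Agent.H27.G.R_seed8.Y587.GP.V

/-!
Project SX, statement CRA: the coefficients of small height.
-/

set_option autoImplicit false

namespace Pool.Agent.Y620.SX

open MeasureTheory Set
open Pool.Agent.Y969.GP (ff ht lam FR PX cr V mB co)
open Pool.Agent.Y587.GP (gs gs_pos gs_int gs_cont gs_total V_eq c0_pos c0_inv_le)

/-! ### harmonic numbers -/

lemma harm_cast (m : ℕ) : ((harmonic m : ℚ) : ℝ) = ∑ i ∈ Finset.Icc 1 m, ((i : ℝ))⁻¹ := by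
  rw [harmonic_eq_sum_Icc]
  push_cast
  rfl

lemma harm_le (m : ℕ) : ((harmonic m : ℚ) : ℝ) ≤ m := by
  rw [harm_cast]
  calc ∑ i ∈ Finset.Icc 1 m, ((i : ℝ))⁻¹ ≤ ∑ i ∈ Finset.Icc 1 m, (1 : ℝ) := by
        refine Finset.sum_le_sum fun i hi => ?_
        have : (1 : ℝ) ≤ i := by exact_mod_cast (Finset.mem_Icc.1 hi).1
        exact inv_le_one_of_one_le₀ this
    _ = m := by simp

lemma harm_bound (y : ℝ) (hy : 0 < y) (m : ℕ) (h1 : (m : ℝ) < y) (h2 : y ≤ m + 1) :
    |2 * ((harmonic m : ℚ) : ℝ) - 2 * (Real.log y + Real.eulerMascheroniConstant)| ≤ 4 / y := by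
  have hg1 := Real.one_half_lt_eulerMascheroniConstant
  have hg2 := Real.eulerMascheroniConstant_lt_two_thirds
  have hyi : 0 < 1 / y := by positivity
  rcases Nat.eq_zero_or_pos m with hm | hm
  · subst hm
    have hy1 : y ≤ 1 := by simpa using h2
    have e1 : (1 : ℝ) ≤ 1 / y := by rw [le_div_iff₀ hy]; linarith
    have e2 : Real.log (1 / y) ≤ 1 / y - 1 := Real.log_le_sub_one_of_pos (by positivity)
    have e3 : Real.log (1 / y) = -Real.log y := by rw [one_div, Real.log_inv]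
    have e4 : Real.log y ≤ 0 := Real.log_nonpos hy.le hy1
    have e5 : 4 / y = 4 * (1 / y) := by ring
    rw [harmonic_zero, e5, abs_le]
    rw [e3] at e2
    push_cast
    constructor <;> linarith
  · have hm0 : (0 : ℝ) < m := by exact_mod_cast hm
    have a1 := Real.eulerMascheroniSeq_lt_eulerMascheroniConstant m
    have a2 := Real.eulerMascheroniConstant_lt_eulerMascheroniSeq' m
    unfold Real.eulerMascheroniSeq at a1
    unfold Real.eulerMascheroniSeq' at a2
    rw [if_neg (by omega)] at a2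
    have b1 : Real.log m ≤ Real.log y := Real.log_le_log hm0 h1.le
    have b2 : Real.log y ≤ Real.log (m + 1) := Real.log_le_log hy h2
    have b3 : Real.log ((m + 1) / m) ≤ ((m : ℝ) + 1) / m - 1 :=
      Real.log_le_sub_one_of_pos (by positivity)
    have b4 : Real.log (((m : ℝ) + 1) / m) = Real.log (m + 1) - Real.log m :=
      Real.log_div (by positivity) hm0.ne'
    have b5 : ((m : ℝ) + 1) / m - 1 = 1 / m := by field_simp; ring
    have b6 : (1 : ℝ) / m ≤ 2 * (1 / y) := by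
      rw [mul_one_div, div_le_div_iff₀ hm0 hy]
      have : (1 : ℝ) ≤ m := by exact_mod_cast hm
      linarith
    have e5 : 4 / y = 4 * (1 / y) := by ring
    rw [e5, abs_le]
    constructor <;> linarith

/-! ### the sum over the multiples -/

/-- the sum over the multiples below `y` -/
noncomputable def FF (X P : ℕ) (y : ℝ) : ℝ :=
  ∑ g ∈ (Finset.Icc 1 X).filter (fun g => g * g * P ≤ X), if (g : ℝ) < y then 2 / (g : ℝ) else 0

lemma FF_bound (X P : ℕ) (hP : 1 ≤ P) (y : ℝ) (hy : 0 < y) :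
    |FF X P y - 2 * (Real.log y + Real.eulerMascheroniConstant)| ≤
      4 / y + if (X : ℝ) < y ^ 2 * P then 2 * y else 0 := by
  obtain ⟨m, hm⟩ : ∃ m, ⌈y⌉₊ = m + 1 := ⟨⌈y⌉₊ - 1, by
    have : 0 < ⌈y⌉₊ := Nat.ceil_pos.2 hy
    omega⟩
  have h1 : (m : ℝ) < y := Nat.lt_ceil.1 (by omega)
  have h2 : y ≤ m + 1 := by
    have := Nat.le_ceil y
    rw [hm] at this
    exact_mod_cast this
  have hlt : ∀ g : ℕ, (g : ℝ) < y ↔ g ≤ m := fun g => by
    rw [← Nat.lt_ceil, hm]
    omega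
  have hb := harm_bound y hy m h1 h2
  have hF : FF X P y = ∑ g ∈ ((Finset.Icc 1 X).filter (fun g => g * g * P ≤ X)).filter
      (fun g : ℕ => (g : ℝ) < y), 2 / (g : ℝ) := by
    unfold FF
    rw [Finset.sum_filter (p := fun g : ℕ => (g : ℝ) < y)]
  have hsub : ((Finset.Icc 1 X).filter (fun g => g * g * P ≤ X)).filter
      (fun g : ℕ => (g : ℝ) < y) ⊆ Finset.Icc 1 m := by
    intro g hg
    simp only [Finset.mem_filter, Finset.mem_Icc] at hg
    exact Finset.mem_Icc.2 ⟨hg.1.1.1, (hlt g).1 hg.2⟩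
  have h2H : 2 * ((harmonic m : ℚ) : ℝ) = ∑ g ∈ Finset.Icc 1 m, 2 / (g : ℝ) := by
    rw [harm_cast, Finset.mul_sum]
    exact Finset.sum_congr rfl fun g _ => by rw [div_eq_mul_inv]
  by_cases hc : ∀ g : ℕ, 1 ≤ g → g ≤ m → g ≤ X ∧ g * g * P ≤ X
  · have hsub2 : Finset.Icc 1 m ⊆ ((Finset.Icc 1 X).filter (fun g => g * g * P ≤ X)).filter
        (fun g : ℕ => (g : ℝ) < y) := by
      intro g hg
      have hg' := Finset.mem_Icc.1 hg
      obtain ⟨h3, h4⟩ := hc g hg'.1 hg'.2
      simp only [Finset.mem_filter, Finset.mem_Icc]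
      exact ⟨⟨⟨hg'.1, h3⟩, h4⟩, (hlt g).2 hg'.2⟩
    rw [hF, Finset.Subset.antisymm hsub hsub2, ← h2H]
    refine hb.trans ?_
    split_ifs <;> linarith
  · push Not at hc
    obtain ⟨g, hg1, hg2, hg3⟩ := hc
    have hg4 : X < g * g * P := by
      by_cases h : g ≤ X
      · exact hg3 h
      · have : g * 1 * 1 ≤ g * g * P := Nat.mul_le_mul (Nat.mul_le_mul le_rfl hg1) hP
        omega
    have hg5 : (X : ℝ) < y ^ 2 * P := by
      have h3 : ((X : ℕ) : ℝ) < ((g * g * P : ℕ) : ℝ) := by exact_mod_cast hg4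
      push_cast at h3
      have h4 : (g : ℝ) ≤ y := ((hlt g).2 hg2).le
      have h5 : (g : ℝ) * g ≤ y ^ 2 := by
        rw [sq]
        exact mul_le_mul h4 h4 (by positivity) hy.le
      have h6 : (g : ℝ) * g * P ≤ y ^ 2 * P := mul_le_mul_of_nonneg_right h5 (by positivity)
      linarith
    rw [if_pos hg5]
    have hF0 : 0 ≤ FF X P y := by
      rw [hF]
      exact Finset.sum_nonneg fun g _ => by positivity
    have hF1 : FF X P y ≤ 2 * ((harmonic m : ℚ) : ℝ) := by
      rw [hF, h2H]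
      exact Finset.sum_le_sum_of_subset_of_nonneg hsub fun g _ _ => by positivity
    have hH := harm_le m
    rw [abs_le] at hb ⊢
    constructor <;> linarith [hb.1, hb.2]

/-! ### Gaussian integrals -/

lemma gs_exp_int (a : ℝ) : Integrable fun v => gs v * Real.exp (a * v) := by
  have h := (gs_int.comp_sub_right (2 * a)).const_mul (Real.exp (a ^ 2))
  refine h.congr (Filter.Eventually.of_forall fun v => ?_)
  show Real.exp (a ^ 2) * gs (v - 2 * a) = gs v * Real.exp (a * v)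
  unfold gs
  rw [← Real.exp_add, ← Real.exp_add]
  congr 1
  ring

lemma gs_id_int : Integrable fun v : ℝ => gs v * v := by
  have h := integrable_mul_exp_neg_mul_sq (b := 1 / 4) (by norm_num)
  refine h.congr (Filter.Eventually.of_forall fun v => ?_)
  show v * Real.exp (-(1 / 4) * v ^ 2) = gs v * v
  rw [Pool.Agent.Y587.GP.gs_eq, mul_comm]

lemma gs_id_zero : ∫ v : ℝ, gs v * v = 0 := by
  have h := integral_neg_eq_self (fun v : ℝ => gs v * v) volume
  have h2 : (fun v : ℝ => gs (-v) * (-v)) = fun v => -(gs v * v) := by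
    funext v
    have : gs (-v) = gs v := by
      unfold gs
      congr 1
      ring
    rw [this]
    ring
  rw [h2, integral_neg] at h
  linarith

lemma lin_int (A : ℝ) : Integrable fun v : ℝ => gs v * (A + v) := by
  have h := (gs_int.mul_const A).add gs_id_int
  refine h.congr (Filter.Eventually.of_forall fun v => ?_)
  show gs v * A + gs v * v = gs v * (A + v)
  ring

lemma lin_val (A : ℝ) : (2 * √Real.pi)⁻¹ * ∫ v : ℝ, gs v * (A + v) = A := by
  have h : ∫ v : ℝ, gs v * (A + v) = (∫ v, gs v * A) + ∫ v, gs v * v := by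
    rw [← integral_add (gs_int.mul_const A) gs_id_int]
    refine integral_congr_ae (Filter.Eventually.of_forall fun v => ?_)
    show gs v * (A + v) = gs v * A + gs v * v
    ring
  rw [h, gs_id_zero, integral_mul_const, gs_total, add_zero]
  have := c0_pos
  field_simp

/-! ### the representation -/

lemma lt_iff (u h : ℝ) (hu : 0 < u) (hh : 0 < h) (g : ℕ) (hg : 1 ≤ g) (v : ℝ) :
    Real.log (2 * Real.pi * ((g : ℝ) ^ 2 * h) / u) < v ↔
      (g : ℝ) < √(u / (2 * Real.pi * h)) * Real.exp (v / 2) := by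
  have hpi := Real.pi_pos
  have hg0 : (0 : ℝ) < g := by exact_mod_cast hg
  rw [Real.log_lt_iff_lt_exp (by positivity)]
  have h1 : 0 ≤ √(u / (2 * Real.pi * h)) * Real.exp (v / 2) := by positivity
  rw [← sq_lt_sq₀ hg0.le h1, mul_pow, Real.sq_sqrt (by positivity), ← Real.exp_nat_mul]
  have h2 : ((2 : ℕ) : ℝ) * (v / 2) = v := by push_cast; ring
  rw [h2, div_lt_iff₀ hu, div_mul_eq_mul_div, lt_div_iff₀ (by positivity)]
  constructor <;> intro h3 <;> nlinarith

lemma term_int (y : ℝ → ℝ) (hy : Measurable y) (a b : ℝ) :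
    Integrable fun v : ℝ => gs v * (if a < y v then b else 0) := by
  have hm : MeasurableSet {v : ℝ | a < y v} := measurableSet_lt measurable_const hy
  have h := (gs_int.mul_const b).indicator hm
  refine h.congr (Filter.Eventually.of_forall fun v => ?_)
  show {v : ℝ | a < y v}.indicator (fun x => gs x * b) v = gs v * (if a < y v then b else 0)
  by_cases hv : a < y v
  · rw [Set.indicator_of_mem (show v ∈ {v : ℝ | a < y v} from hv), if_pos hv]
  · rw [Set.indicator_of_notMem (show v ∉ {v : ℝ | a < y v} from hv), if_neg hv, mul_zero]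

lemma repr (X : ℕ) (p : ℕ × ℕ) (u : ℝ) (h1 : 1 ≤ p.1) (h2 : 1 ≤ p.2) (hu : 0 < u) :
    √(ht p) * cr X p u = (2 * √Real.pi)⁻¹ * ∫ v : ℝ,
      gs v * FF X (p.1 * p.2) (√(u / (2 * Real.pi * ht p)) * Real.exp (v / 2)) := by
  have hpi := Real.pi_pos
  have hh : 0 < ht p := by
    unfold Pool.Agent.Y969.GP.ht
    have a1 : (0 : ℝ) < p.1 := by exact_mod_cast h1
    have a2 : (0 : ℝ) < p.2 := by exact_mod_cast h2
    positivity
  set y : ℝ → ℝ := fun v => √(u / (2 * Real.pi * ht p)) * Real.exp (v / 2) with hy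
  have hym : Measurable y := by
    rw [hy]
    fun_prop
  have e1 : ∫ v : ℝ, gs v * FF X (p.1 * p.2) (y v) =
      ∑ g ∈ (Finset.Icc 1 X).filter (fun g => g * g * (p.1 * p.2) ≤ X),
        ∫ v : ℝ, gs v * (if (g : ℝ) < y v then 2 / (g : ℝ) else 0) := by
    rw [← integral_finsetSum ((Finset.Icc 1 X).filter (fun g => g * g * (p.1 * p.2) ≤ X))
      (f := fun (g : ℕ) (v : ℝ) => gs v * (if (g : ℝ) < y v then 2 / (g : ℝ) else 0))
      fun g _ => term_int y hym g (2 / (g : ℝ))]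
    refine integral_congr_ae (Filter.Eventually.of_forall fun v => ?_)
    show gs v * FF X (p.1 * p.2) (y v) = _
    unfold FF
    rw [Finset.mul_sum]
  show √(ht p) * cr X p u = (2 * √Real.pi)⁻¹ * ∫ v : ℝ, gs v * FF X (p.1 * p.2) (y v)
  rw [e1]
  unfold Pool.Agent.Y969.GP.cr
  rw [Finset.mul_sum, Finset.mul_sum]
  refine Finset.sum_congr rfl fun g hg => ?_
  have hg1 : 1 ≤ g := (Finset.mem_Icc.1 (Finset.mem_filter.1 hg).1).1
  have hg0 : (0 : ℝ) < g := by exact_mod_cast hg1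
  have e2 : ht (g * p.1, g * p.2) = (g : ℝ) ^ 2 * ht p := by
    unfold Pool.Agent.Y969.GP.ht
    push_cast
    ring
  have e3 : √((g : ℝ) ^ 2 * ht p) = g * √(ht p) := by
    rw [Real.sqrt_mul (by positivity), Real.sqrt_sq hg0.le]
  have e4 : ∫ v : ℝ, gs v * (if (g : ℝ) < y v then 2 / (g : ℝ) else 0) =
      (2 / (g : ℝ)) * ∫ v in Ioi (Real.log (2 * Real.pi * ((g : ℝ) ^ 2 * ht p) / u)), gs v := by
    rw [← integral_indicator measurableSet_Ioi, ← integral_const_mul]
    refine integral_congr_ae (Filter.Eventually.of_forall fun v => ?_)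
    have hiff := lt_iff u (ht p) hu hh g hg1 v
    show gs v * (if (g : ℝ) < y v then 2 / (g : ℝ) else 0) = 2 / (g : ℝ) *
      (Ioi (Real.log (2 * Real.pi * ((g : ℝ) ^ 2 * ht p) / u))).indicator (fun v => gs v) v
    by_cases hv : (g : ℝ) < y v
    · have hv2 : v ∈ Ioi (Real.log (2 * Real.pi * ((g : ℝ) ^ 2 * ht p) / u)) := hiff.2 hv
      rw [if_pos hv, Set.indicator_of_mem hv2, mul_comm]
    · have hv2 : v ∉ Ioi (Real.log (2 * Real.pi * ((g : ℝ) ^ 2 * ht p) / u)) :=
        fun h => hv (hiff.1 h)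
      rw [if_neg hv, Set.indicator_of_notMem hv2, mul_zero, mul_zero]
  rw [e4]
  unfold Pool.Agent.Y969.GP.co
  rw [e2, e3, V_eq]
  have hs : 0 < √(ht p) := Real.sqrt_pos.2 hh
  field_simp

/-- the pointwise bound -/
lemma pt_bound (ε : ℝ) (hε : 0 < ε) (X P : ℕ) (hP : 1 ≤ P) (u : ℝ) (hu : 1 ≤ u)
    (hX : u ^ (1 + ε) ≤ (X : ℝ)) (hPu : (P : ℝ) ≤ u ^ (1 / 2 : ℝ)) (v : ℝ) :
    |FF X P (√(u / (2 * Real.pi * P)) * Real.exp (v / 2)) -
      (2 * Real.log √(u / (2 * Real.pi * P)) + 2 * Real.eulerMascheroniConstant + v)| ≤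
      u ^ (-(1 / 4) : ℝ) * (12 * Real.exp (-(1 / 2) * v) +
        2 * Real.exp ((1 / 2 + 1 / ε) * v)) := by
  have hpi := Real.pi_pos
  have hpi3 := Real.pi_gt_three
  have hpi4 := Real.pi_lt_four
  have hu0 : 0 < u := by linarith
  have hP0 : (0 : ℝ) < P := by exact_mod_cast hP
  have hP1 : (1 : ℝ) ≤ P := by exact_mod_cast hP
  set G := √(u / (2 * Real.pi * P)) with hG
  have hG0 : 0 < G := Real.sqrt_pos.2 (by positivity)
  have hG2 : G ^ 2 = u / (2 * Real.pi * P) := Real.sq_sqrt (by positivity)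
  have hE := Real.exp_pos (v / 2)
  have hb := FF_bound X P hP (G * Real.exp (v / 2)) (by positivity)
  have hlog : 2 * (Real.log (G * Real.exp (v / 2)) + Real.eulerMascheroniConstant) =
      2 * Real.log G + 2 * Real.eulerMascheroniConstant + v := by
    rw [Real.log_mul hG0.ne' hE.ne', Real.log_exp]
    ring
  rw [hlog] at hb
  refine hb.trans ?_
  have hq : u ^ (1 / 4 : ℝ) * u ^ (1 / 4 : ℝ) = u ^ (1 / 2 : ℝ) := by
    rw [← Real.rpow_add hu0]
    norm_num
  have hq2 : u ^ (1 / 2 : ℝ) * u ^ (1 / 2 : ℝ) = u := by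
    rw [← Real.rpow_add hu0]
    norm_num
  have hq4 : 0 < u ^ (1 / 4 : ℝ) := Real.rpow_pos_of_pos hu0 _
  have hqm : u ^ (-(1 / 4) : ℝ) = (u ^ (1 / 4 : ℝ))⁻¹ := Real.rpow_neg hu0.le _
  -- the first term
  have h1 : 4 / (G * Real.exp (v / 2)) ≤ u ^ (-(1 / 4) : ℝ) * (12 * Real.exp (-(1 / 2) * v)) := by
    have a1 : u ^ (1 / 4 : ℝ) ≤ 3 * G := by
      refine (sq_le_sq₀ hq4.le (by positivity)).1 ?_
      rw [sq, hq, mul_pow, hG2]
      have a2 : u ^ (1 / 2 : ℝ) * (2 * Real.pi * P) ≤ 9 * u := by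
        have a3 : u ^ (1 / 2 : ℝ) * P ≤ u := by
          calc u ^ (1 / 2 : ℝ) * P ≤ u ^ (1 / 2 : ℝ) * u ^ (1 / 2 : ℝ) :=
                mul_le_mul_of_nonneg_left hPu (Real.rpow_nonneg hu0.le _)
            _ = u := hq2
        have a4 : 0 ≤ u ^ (1 / 2 : ℝ) * P := by positivity
        have a5 : 2 * Real.pi ≤ 8 := by linarith
        nlinarith
      rw [show (3 : ℝ) ^ 2 * (u / (2 * Real.pi * P)) = 9 * u / (2 * Real.pi * P) by ring,
        le_div_iff₀ (by positivity)]
      exact a2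
    have a2 : Real.exp (-(1 / 2) * v) = (Real.exp (v / 2))⁻¹ := by
      rw [← Real.exp_neg]
      congr 1
      ring
    rw [a2, hqm, div_le_iff₀ (by positivity)]
    have a3 : (u ^ (1 / 4 : ℝ))⁻¹ * (12 * (Real.exp (v / 2))⁻¹) * (G * Real.exp (v / 2)) =
        12 * G / u ^ (1 / 4 : ℝ) := by
      field_simp
    rw [a3, le_div_iff₀ hq4]
    linarith
  -- the second term
  have h2 : (if (X : ℝ) < (G * Real.exp (v / 2)) ^ 2 * P then 2 * (G * Real.exp (v / 2)) else 0) ≤
      u ^ (-(1 / 4) : ℝ) * (2 * Real.exp ((1 / 2 + 1 / ε) * v)) := by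
    split_ifs with hc
    · have b1 : (G * Real.exp (v / 2)) ^ 2 * P = u * Real.exp v / (2 * Real.pi) := by
        have b2 : Real.exp (v / 2) ^ 2 = Real.exp v := by
          rw [← Real.exp_nat_mul]
          congr 1
          push_cast
          ring
        rw [mul_pow, hG2, b2]
        field_simp
      rw [b1] at hc
      have b2 : u ^ ε ≤ Real.exp v := by
        have b3 : u * u ^ ε ≤ u * Real.exp v / (2 * Real.pi) := by
          have : u * u ^ ε = u ^ (1 + ε) := by rw [Real.rpow_add hu0, Real.rpow_one]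
          rw [this]
          linarith
        rw [le_div_iff₀ (by positivity)] at b3
        have b4 : u * (u ^ ε * (2 * Real.pi)) ≤ u * Real.exp v := by linarith
        have b5 := le_of_mul_le_mul_left b4 hu0
        have b6 : u ^ ε * 1 ≤ u ^ ε * (2 * Real.pi) :=
          mul_le_mul_of_nonneg_left (by linarith) (Real.rpow_nonneg hu0.le _)
        linarith
      have b3 : u ≤ Real.exp (1 / ε * v) := by
        have b4 : (u ^ ε) ^ (1 / ε) ≤ (Real.exp v) ^ (1 / ε) :=
          Real.rpow_le_rpow (Real.rpow_nonneg hu0.le _) b2 (by positivity)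
        rw [← Real.rpow_mul hu0.le, ← Real.exp_mul] at b4
        rw [show ε * (1 / ε) = 1 by field_simp, Real.rpow_one] at b4
        rw [mul_comm (1 / ε) v]
        exact b4
      have b4 : G ≤ u ^ (1 / 2 : ℝ) := by
        refine (sq_le_sq₀ hG0.le (Real.rpow_nonneg hu0.le _)).1 ?_
        rw [hG2, sq, hq2, div_le_iff₀ (by positivity)]
        have : 1 ≤ 2 * Real.pi * P := by nlinarith
        nlinarith
      have b5 : Real.exp ((1 / 2 + 1 / ε) * v) = Real.exp (v / 2) * Real.exp (1 / ε * v) := by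
        rw [← Real.exp_add]
        congr 1
        ring
      have b6 : G ≤ u ^ (-(1 / 4) : ℝ) * Real.exp (1 / ε * v) := by
        have b7 : G * u ^ (1 / 4 : ℝ) ≤ Real.exp (1 / ε * v) := by
          refine le_trans ?_ b3
          calc G * u ^ (1 / 4 : ℝ) ≤ u ^ (1 / 2 : ℝ) * u ^ (1 / 2 : ℝ) := by
                refine mul_le_mul b4 ?_ hq4.le (Real.rpow_nonneg hu0.le _)
                exact Real.rpow_le_rpow_of_exponent_le hu (by norm_num)
            _ = u := hq2
        rw [hqm, inv_mul_eq_div, le_div_iff₀ hq4]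
        exact b7
      rw [b5]
      have b8 : G * Real.exp (v / 2) ≤
          u ^ (-(1 / 4) : ℝ) * Real.exp (1 / ε * v) * Real.exp (v / 2) :=
        mul_le_mul_of_nonneg_right b6 hE.le
      linarith
    · have := Real.rpow_pos_of_pos hu0 (-(1 / 4) : ℝ)
      positivity
  rw [mul_add]
  exact add_le_add h1 h2

/-- **CRA**: the coefficients of small height -/
theorem t_CRA' : ∀ ε : ℝ, 0 < ε → ∃ C : ℝ, 0 < C ∧ ∀ (X : ℕ) (p : ℕ × ℕ) (u : ℝ), 1 ≤ p.1 →
    1 ≤ p.2 → 1 ≤ u → u ^ (1 + ε) ≤ (X : ℝ) → ht p ≤ u ^ (1 / 2 : ℝ) →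
    |√(ht p) * cr X p u -
      (Real.log (u / (2 * Real.pi * ht p)) + 2 * Real.eulerMascheroniConstant)| ≤
      C * u ^ (-(1 / 4) : ℝ) := by
  intro ε hε
  have hB : Integrable fun v : ℝ => gs v * (12 * Real.exp (-(1 / 2) * v) +
      2 * Real.exp ((1 / 2 + 1 / ε) * v)) := by
    have h := ((gs_exp_int (-(1 / 2))).const_mul 12).add
      ((gs_exp_int (1 / 2 + 1 / ε)).const_mul 2)
    refine h.congr (Filter.Eventually.of_forall fun v => ?_)
    show 12 * (gs v * Real.exp (-(1 / 2) * v)) + 2 * (gs v * Real.exp ((1 / 2 + 1 / ε) * v)) = _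
    ring
  have hB0 : 0 ≤ ∫ v : ℝ, gs v * (12 * Real.exp (-(1 / 2) * v) +
      2 * Real.exp ((1 / 2 + 1 / ε) * v)) :=
    integral_nonneg fun v => mul_nonneg (gs_pos v).le (by positivity)
  have hc0 := c0_pos
  refine ⟨(2 * √Real.pi)⁻¹ * (∫ v : ℝ, gs v * (12 * Real.exp (-(1 / 2) * v) +
      2 * Real.exp ((1 / 2 + 1 / ε) * v))) + 1, by positivity, ?_⟩
  intro X p u h1 h2 hu hX hh
  have hpi := Real.pi_pos
  have hu0 : 0 < u := by linarith
  have hP : 1 ≤ p.1 * p.2 := Nat.mul_pos h1 h2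
  have hht : ht p = ((p.1 * p.2 : ℕ) : ℝ) := by
    unfold Pool.Agent.Y969.GP.ht
    push_cast
    ring
  have hP0 : (0 : ℝ) < ((p.1 * p.2 : ℕ) : ℝ) := by exact_mod_cast hP
  rw [repr X p u h1 h2 hu0, hht]
  rw [hht] at hh
  set G := √(u / (2 * Real.pi * ((p.1 * p.2 : ℕ) : ℝ))) with hG
  have hlogG : Real.log (u / (2 * Real.pi * ((p.1 * p.2 : ℕ) : ℝ))) = 2 * Real.log G := by
    rw [hG, Real.log_sqrt (by positivity)]
    ring
  have hpt := pt_bound ε hε X (p.1 * p.2) hP u hu hX hh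
  rw [← hG] at hpt
  rw [hlogG]
  have hFint : Integrable fun v : ℝ => gs v * FF X (p.1 * p.2) (G * Real.exp (v / 2)) := by
    have hym : Measurable fun v : ℝ => G * Real.exp (v / 2) := by fun_prop
    have h := integrable_finsetSum ((Finset.Icc 1 X).filter (fun g => g * g * (p.1 * p.2) ≤ X))
      (f := fun (g : ℕ) (v : ℝ) =>
        gs v * (if (g : ℝ) < G * Real.exp (v / 2) then 2 / (g : ℝ) else 0))
      fun g _ => term_int _ hym g (2 / (g : ℝ))
    refine h.congr (Filter.Eventually.of_forall fun v => ?_)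
    show ∑ g ∈ (Finset.Icc 1 X).filter (fun g => g * g * (p.1 * p.2) ≤ X),
      gs v * (if (g : ℝ) < G * Real.exp (v / 2) then 2 / (g : ℝ) else 0) =
        gs v * FF X (p.1 * p.2) (G * Real.exp (v / 2))
    unfold FF
    rw [Finset.mul_sum]
  have hmain : 2 * Real.log G + 2 * Real.eulerMascheroniConstant = (2 * √Real.pi)⁻¹ *
      ∫ v : ℝ, gs v * (2 * Real.log G + 2 * Real.eulerMascheroniConstant + v) := (lin_val _).symm
  rw [hmain, ← mul_sub, ← integral_sub hFint (lin_int _), abs_mul, abs_of_pos (inv_pos.2 hc0)]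
  have hle : |∫ v : ℝ, (gs v * FF X (p.1 * p.2) (G * Real.exp (v / 2)) -
      gs v * (2 * Real.log G + 2 * Real.eulerMascheroniConstant + v))| ≤
      ∫ v : ℝ, u ^ (-(1 / 4) : ℝ) * (gs v * (12 * Real.exp (-(1 / 2) * v) +
        2 * Real.exp ((1 / 2 + 1 / ε) * v))) := by
    rw [← Real.norm_eq_abs]
    refine norm_integral_le_of_norm_le (hB.const_mul _)
      (Filter.Eventually.of_forall fun v => ?_)
    rw [← mul_sub, Real.norm_eq_abs, abs_mul, abs_of_pos (gs_pos v)]
    have h3 := mul_le_mul_of_nonneg_left (hpt v) (gs_pos v).le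
    refine h3.trans (le_of_eq ?_)
    ring
  rw [integral_const_mul] at hle
  have h4 := mul_le_mul_of_nonneg_left hle (inv_pos.2 hc0).le
  have h5 := Real.rpow_pos_of_pos hu0 (-(1 / 4) : ℝ)
  refine h4.trans ?_
  rw [add_mul, one_mul]
  have h6 : (2 * √Real.pi)⁻¹ * (u ^ (-(1 / 4) : ℝ) * ∫ v : ℝ, gs v *
      (12 * Real.exp (-(1 / 2) * v) + 2 * Real.exp ((1 / 2 + 1 / ε) * v))) =
      (2 * √Real.pi)⁻¹ * (∫ v : ℝ, gs v * (12 * Real.exp (-(1 / 2) * v) +
        2 * Real.exp ((1 / 2 + 1 / ε) * v))) * u ^ (-(1 / 4) : ℝ) := by ring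
  rw [h6]
  linarith

/-- **CRA**: the coefficients of small height -/
theorem t_CRA (_h : Pool.Agent.Y969.GP.S_V) : Pool.Agent.Y969.SM.S_CRA := t_CRA'

end Pool.Agent.Y620.SX
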